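import Pool.Agent.H606.AV.Stm5

set_option autoImplicit false

/-! S_NMT of project AV (helper606), proved by helper218. -/

open Complex Filter Topology Metric Set MeasureTheory

namespace Pool.Agent.H218.AV

open Pool.Agent.H606.AV

/-- finitely many zeros in a bounded set -/
theorem fin_zeros {g : ℂ → ℂ} (hg : Differentiable ℂ g) (hne : ∃ z, g z ≠ 0) {S : Set ℂ}
    (hS : Bornology.IsBounded S) : {z : ℂ | z ∈ S ∧ g z = 0}.Finite := by
  by_contra hinf
  have hinf' : {z : ℂ | z ∈ S ∧ g z = 0}.Infinite := hinf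
  obtain ⟨x, -, hx⟩ := hinf'.exists_accPt_of_subset_isCompact hS.isCompact_closure
    (fun z hz => subset_closure hz.1)
  have hfreq : ∃ᶠ z in 𝓝[≠] x, g z = 0 :=
    (accPt_iff_frequently_nhdsNE.1 hx).mono fun z hz => hz.2
  have h1 : AnalyticOnNhd ℂ g univ := fun z _ => hg.analyticAt z
  have h2 := h1.eqOn_zero_of_preconnected_of_frequently_eq_zero isPreconnected_univ
    (mem_univ x) hfreq
  obtain ⟨z, hz⟩ := hne
  exact hz (h2 (mem_univ z))

theorem Nm_eq_sum {g : ℂ → ℂ} {S : Set ℂ} (h : {z : ℂ | z ∈ S ∧ g z = 0}.Finite) :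
    Nm g S = ∑ z ∈ h.toFinset, (analyticOrderNatAt g z : ℝ) :=
  finsum_mem_eq_finite_toFinset_sum _ h

theorem trans (g : ℂ → ℂ) (S : Set ℂ) (x : ℂ) :
    Nm (fun v => g (x + v)) S = Nm g ((fun v => x + v) '' S) := by
  have h1 : {z : ℂ | z ∈ (fun v => x + v) '' S ∧ g z = 0} =
      (fun v => x + v) '' {z : ℂ | z ∈ S ∧ g (x + z) = 0} := by
    ext z
    constructor
    · rintro ⟨⟨v, hv, rfl⟩, hz⟩
      exact ⟨v, ⟨hv, hz⟩, rfl⟩
    · rintro ⟨v, ⟨hv, hz⟩, rfl⟩
      exact ⟨⟨v, hv, rfl⟩, hz⟩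
  have hord : ∀ v : ℂ, analyticOrderNatAt (fun v => g (x + v)) v = analyticOrderNatAt g (x + v) := by
    intro v
    unfold analyticOrderNatAt
    have hA : AnalyticAt ℂ (fun v : ℂ => x + v) v := by fun_prop
    have hd : deriv (fun v : ℂ => x + v) v ≠ 0 := by
      rw [deriv_const_add, deriv_id'']
      exact one_ne_zero
    have h2 := analyticOrderAt_comp_of_deriv_ne_zero (f := g) hA hd
    rw [← h2]
    rfl
  unfold Nm
  rw [h1, finsum_mem_image (fun a _ b _ hab => add_left_cancel hab)]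
  exact finsum_mem_congr rfl fun v _ => by rw [hord]

theorem expf (g : ℂ → ℂ) (S : Set ℂ) (p q : ℂ) (hg : Differentiable ℂ g) :
    Nm (fun z => g z * Complex.exp (p * z + q)) S = Nm g S := by
  have h1 : {z : ℂ | z ∈ S ∧ g z * Complex.exp (p * z + q) = 0} = {z : ℂ | z ∈ S ∧ g z = 0} := by
    ext z
    simp [Complex.exp_ne_zero]
  unfold Nm
  rw [h1]
  refine finsum_mem_congr rfl fun z _ => ?_
  have hA : AnalyticAt ℂ (fun z : ℂ => Complex.exp (p * z + q)) z := by fun_prop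
  have h2 : analyticOrderAt (fun z : ℂ => Complex.exp (p * z + q)) z = 0 :=
    hA.analyticOrderAt_eq_zero.2 (Complex.exp_ne_zero _)
  have h3 : analyticOrderAt (g * fun z : ℂ => Complex.exp (p * z + q)) z = analyticOrderAt g z := by
    rw [analyticOrderAt_mul (hg.analyticAt z) hA, h2, add_zero]
  unfold analyticOrderNatAt
  rw [← h3]
  rfl

theorem mono (g : ℂ → ℂ) (S S' : Set ℂ) (hg : Differentiable ℂ g) (hne : ∃ z, g z ≠ 0)
    (hS' : Bornology.IsBounded S') (h : S ⊆ S') : Nm g S ≤ Nm g S' := by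
  rw [Nm_eq_sum (fin_zeros hg hne (hS'.subset h)), Nm_eq_sum (fin_zeros hg hne hS')]
  refine Finset.sum_le_sum_of_subset_of_nonneg ?_ fun _ _ _ => Nat.cast_nonneg _
  intro z hz
  rw [Set.Finite.mem_toFinset] at hz ⊢
  exact ⟨h hz.1, hz.2⟩

theorem union (g : ℂ → ℂ) (S : Set ℂ) (n : ℕ) (U : ℕ → Set ℂ) (K : ℝ) (hg : Differentiable ℂ g)
    (hne : ∃ z, g z ≠ 0) (hU : ∀ j < n, Bornology.IsBounded (U j)) (hS : ∀ z ∈ S, ∃ j < n, z ∈ U j)
    (hK : ∀ j < n, Nm g (U j) ≤ K) : Nm g S ≤ n * K := by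
  classical
  have hSb : Bornology.IsBounded S := by
    have h1 : Bornology.IsBounded (⋃ j ∈ Finset.range n, U j) :=
      (Bornology.isBounded_biUnion_finset _).2 fun j hj => hU j (Finset.mem_range.1 hj)
    refine h1.subset fun z hz => ?_
    obtain ⟨j, hj, hzj⟩ := hS z hz
    simp only [mem_iUnion]
    exact ⟨j, Finset.mem_range.2 hj, hzj⟩
  have hfin := fin_zeros hg hne hSb
  rw [Nm_eq_sum hfin]
  calc ∑ z ∈ hfin.toFinset, (analyticOrderNatAt g z : ℝ)
      ≤ ∑ z ∈ hfin.toFinset, ∑ j ∈ Finset.range n, (if z ∈ U j then (analyticOrderNatAt g z : ℝ) else 0) := by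
        refine Finset.sum_le_sum fun z hz => ?_
        obtain ⟨j, hj, hzj⟩ := hS z (hfin.mem_toFinset.1 hz).1
        refine le_trans (le_of_eq ?_) (Finset.single_le_sum (f := fun j =>
          (if z ∈ U j then (analyticOrderNatAt g z : ℝ) else 0)) (fun i _ => ?_) (Finset.mem_range.2 hj))
        · rw [if_pos hzj]
        · split_ifs
          · exact Nat.cast_nonneg _
          · exact le_rfl
    _ = ∑ j ∈ Finset.range n, ∑ z ∈ hfin.toFinset, (if z ∈ U j then (analyticOrderNatAt g z : ℝ) else 0) :=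
        Finset.sum_comm
    _ ≤ ∑ _j ∈ Finset.range n, K := by
        refine Finset.sum_le_sum fun j hj => ?_
        have hj' := Finset.mem_range.1 hj
        refine le_trans ?_ (hK j hj')
        rw [Nm_eq_sum (fin_zeros hg hne (hU j hj')), ← Finset.sum_filter]
        refine Finset.sum_le_sum_of_subset_of_nonneg ?_ fun _ _ _ => Nat.cast_nonneg _
        intro z hz
        rw [Finset.mem_filter, Set.Finite.mem_toFinset] at hz
        rw [Set.Finite.mem_toFinset]
        exact ⟨hz.2, hz.1.2⟩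
    _ = n * K := by rw [Finset.sum_const, Finset.card_range, nsmul_eq_mul]

theorem S_NMT_proof : S_NMT := ⟨trans, expf, mono, union⟩

end Pool.Agent.H218.AV
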